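import Pool.Agent.H.MP_f37e0b_al.Defs

set_option autoImplicit false
set_option backward.isDefEq.respectTransparency false

namespace Pool.Agent.H.MP_f37e0b_al

open CategoryTheory Limits Pretriangulated Category Preadditive ZeroObject

universe v u

variable {C : Type u} [Category.{v} C] [Preadditive C] [HasZeroObject C] [HasShift C ℤ]
  [∀ n : ℤ, (shiftFunctor C n).Additive] [Pretriangulated C]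

theorem Ex.iso {X Y Z X' Y' Z' : C} {a : X ⟶ Y} {b : Y ⟶ Z} {c : Z ⟶ X⟦(1 : ℤ)⟧} (h : Ex a b c)
    {a' : X' ⟶ Y'} {b' : Y' ⟶ Z'} {c' : Z' ⟶ X'⟦(1 : ℤ)⟧} (e₁ : X' ≅ X) (e₂ : Y' ≅ Y) (e₃ : Z' ≅ Z)
    (h₁ : a' ≫ e₂.hom = e₁.hom ≫ a) (h₂ : b' ≫ e₃.hom = e₂.hom ≫ b)
    (h₃ : c' ≫ e₁.hom⟦1⟧' = e₃.hom ≫ c) : Ex a' b' c' :=
  isomorphic_distinguished _ h _ (Triangle.isoMk _ _ e₁ e₂ e₃ h₁ h₂ h₃)

section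

variable {X Y Z X' Y' Z' W : C} {a : X ⟶ Y} {b : Y ⟶ Z} {c : Z ⟶ X⟦(1 : ℤ)⟧} (h : Ex a b c)
  {a' : X' ⟶ Y'} {b' : Y' ⟶ Z'} {c' : Z' ⟶ X'⟦(1 : ℤ)⟧}
include h

theorem Ex.tr3 (h' : Ex a' b' c') (x : X ⟶ X') (y : Y ⟶ Y') (e : a ≫ y = x ≫ a') :
    ∃ z : Z ⟶ Z', b ≫ z = y ≫ b' ∧ c ≫ x⟦1⟧' = z ≫ c' :=
  complete_distinguished_triangle_morphism _ _ h h' x y e

theorem Ex.isIso (h' : Ex a' b' c') (x : X ⟶ X') (y : Y ⟶ Y') {z : Z ⟶ Z'} [hx : IsIso x]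
    [hy : IsIso y] (e : a ≫ y = x ≫ a') (e' : b ≫ z = y ≫ b') (e'' : c ≫ x⟦1⟧' = z ≫ c') :
    IsIso z :=
  isIso₃_of_isIso₁₂ (T := Triangle.mk a b c) (T' := Triangle.mk a' b' c') ⟨x, y, z, e, e', e''⟩
    h h' hx hy

theorem Ex.rot : Ex b c (-a⟦1⟧') := rot_of_distTriang _ h
theorem Ex.z₁ : a ≫ b = 0 := comp_distTriang_mor_zero₁₂ _ h
theorem Ex.z₂ : b ≫ c = 0 := comp_distTriang_mor_zero₂₃ _ h
theorem Ex.z₃ : c ≫ a⟦1⟧' = 0 := comp_distTriang_mor_zero₃₁ _ h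
theorem Ex.y₂ (f : Y ⟶ W) (e : a ≫ f = 0) : ∃ g, f = b ≫ g := Triangle.yoneda_exact₂ _ h f e
theorem Ex.y₃ (f : Z ⟶ W) (e : b ≫ f = 0) : ∃ g, f = c ≫ g := Triangle.yoneda_exact₃ _ h f e
theorem Ex.y₁ (f : X⟦(1 : ℤ)⟧ ⟶ W) (e : c ≫ f = 0) : ∃ g, f = a⟦1⟧' ≫ g := by
  obtain ⟨g, rfl⟩ := h.rot.y₃ f e
  exact ⟨-g, by simp⟩
theorem Ex.k₁ (f : W ⟶ X⟦(1 : ℤ)⟧) (e : f ≫ a⟦1⟧' = 0) : ∃ g, f = g ≫ c :=
  Triangle.coyoneda_exact₁ _ h f e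
theorem Ex.k₂ (f : W ⟶ Y) (e : f ≫ b = 0) : ∃ g, f = g ≫ a := Triangle.coyoneda_exact₂ _ h f e
theorem Ex.k₃ (f : W ⟶ Z) (e : f ≫ c = 0) : ∃ g, f = g ≫ b := Triangle.coyoneda_exact₃ _ h f e

theorem Ex.uniq {b' : Y ⟶ Z'} {c' : Z' ⟶ X⟦(1 : ℤ)⟧} (h' : Ex a b' c') :
    ∃ e : Z ≅ Z', b ≫ e.hom = b' ∧ e.hom ≫ c' = c := by
  obtain ⟨e, h1, h2⟩ := h.tr3 h' (𝟙 X) (𝟙 Y) (by simp)
  have := h.isIso h' _ _ (by simp) h1 h2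
  exact ⟨asIso e, by simpa using h1, by simpa using h2.symm⟩

end

theorem Oct.iso {X Y Y' Z Y'' A : C} {a : X ⟶ Y} {b : Y ⟶ Z} {c : Z ⟶ X⟦(1 : ℤ)⟧} {g : Y ⟶ Y'}
    {g' : Y' ⟶ Y''} {g'' : Y'' ⟶ Y⟦(1 : ℤ)⟧} {p : Y' ⟶ A} {r : A ⟶ X⟦(1 : ℤ)⟧} {α : Z ⟶ A}
    {β : A ⟶ Y''} (h : Oct a b c g g' g'' p r α β) {Z₀ Y₀ A₀ : C} (e₁ : Z ≅ Z₀) (e₂ : Y'' ≅ Y₀)
    (e₃ : A ≅ A₀) {b₀ c₀ g₀ g₁ p₀ r₀} (h1 : b ≫ e₁.hom = b₀) (h2 : e₁.hom ≫ c₀ = c)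
    (h3 : g' ≫ e₂.hom = g₀) (h4 : e₂.hom ≫ g₁ = g'') (h5 : p ≫ e₃.hom = p₀) (h6 : e₃.hom ≫ r₀ = r) :
    Oct a b₀ c₀ g g₀ g₁ p₀ r₀ (e₁.inv ≫ α ≫ e₃.hom) (e₃.inv ≫ β ≫ e₂.hom) := by
  obtain ⟨k1, k2, k3, k4, k5⟩ := h
  subst h1 h2 h3 h4 h5 h6
  exact ⟨k1.iso e₁.symm e₃.symm e₂.symm (by simp) (by simp) (by simp [← Functor.map_comp]),
    by simp [reassoc_of% k2], by simp [k3], by simp [reassoc_of% k4], by simp [k5]⟩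

/-- independence of the choice of the auxiliary triangles -/
theorem vg_iff {T T' : Triangle C} (φ : T ⟶ T') : VerdierGood φ ↔ ∀ D : Aux φ, VGFor D := by
  refine ⟨fun ⟨D, α₁, β₁, α₂, β₂, h1, h2, h3⟩ E => ?_, fun h => ?_⟩
  · obtain ⟨e, a1, a2⟩ := D.exA.uniq E.exA
    obtain ⟨e', b1, b2⟩ := D.exf.uniq E.exf
    obtain ⟨e'', c1, c2⟩ := D.exg.uniq E.exg
    exact ⟨_, _, _, _, h1.iso (.refl _) e'' e (comp_id _) (id_comp _) c1 c2 a1 a2,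
      h2.iso e' (.refl _) e b1 b2 (comp_id _) (id_comp _) a1 a2, by simp [h3]⟩
  · obtain ⟨_, _, _, h1⟩ := distinguished_cocone_triangle (T.mor₁ ≫ φ.hom₂)
    obtain ⟨_, _, _, h2⟩ := distinguished_cocone_triangle φ.hom₁
    obtain ⟨_, _, _, h3⟩ := distinguished_cocone_triangle φ.hom₂
    exact ⟨⟨_, _, _, _, _, _, _, _, _, h1, h2, h3⟩, h _⟩

theorem sum' (T : Bool → Triangle C) (hT : ∀ j, T j ∈ distTriang C) :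
    Ex (biprod.map (T true).mor₁ (T false).mor₁) (biprod.map (T true).mor₂ (T false).mor₂)
      (biprod.desc ((T true).mor₃ ≫ biprod.inl⟦1⟧') ((T false).mor₃ ≫ biprod.inr⟦1⟧')) := by
  let e : ∀ (F : Bool → C), F true ⊞ F false ≅ ∏ᶜ F := fun F =>
    ⟨Pi.lift fun j => Bool.rec biprod.snd biprod.fst j, biprod.lift (Pi.π _ _) (Pi.π _ _),
      by ext <;> simp, by ext (_ | _) <;> simp⟩
  have h : Ex (Limits.Pi.map fun j => (T j).mor₁) (Limits.Pi.map fun j => (T j).mor₂)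
      (Limits.Pi.map (fun j => (T j).mor₃) ≫ inv (piComparison _ _)) :=
    productTriangle_distinguished T hT
  refine h.iso (e fun j => (T j).obj₁)
    (e fun j => (T j).obj₂) (e fun j => (T j).obj₃) ?_ ?_ ?_
  · ext (_ | _) <;> simp [e]
  · ext (_ | _) <;> simp [e]
  · rw [← assoc, IsIso.eq_comp_inv]
    ext (_ | _) <;> simp [e, ← Functor.map_comp]

theorem Ex.sum {X Y Z X' Y' Z' : C} {a : X ⟶ Y} {b : Y ⟶ Z} {c : Z ⟶ X⟦(1 : ℤ)⟧} (h : Ex a b c)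
    {a' : X' ⟶ Y'} {b' : Y' ⟶ Z'} {c' : Z' ⟶ X'⟦(1 : ℤ)⟧} (h' : Ex a' b' c') :
    Ex (biprod.map a a') (biprod.map b b')
      (biprod.desc (c ≫ biprod.inl⟦1⟧') (c' ≫ biprod.inr⟦1⟧')) :=
  sum' (fun j => Bool.rec (Triangle.mk a' b' c') (Triangle.mk a b c) j)
    (by rintro (_ | _); exacts [h', h])

end Pool.Agent.H.MP_f37e0b_al
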