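import Pool.Agent.H.MP_f37e0b_al.A

set_option autoImplicit false
set_option backward.isDefEq.respectTransparency false

namespace Pool.Agent.H.MP_f37e0b_al

open CategoryTheory Limits Pretriangulated Category Preadditive ZeroObject

universe v u

variable {C : Type u} [Category.{v} C] [Preadditive C] [HasZeroObject C] [HasShift C ℤ]
  [∀ n : ℤ, (shiftFunctor C n).Additive] [Pretriangulated C]

section

variable {X Y Z X' Y' Z' : C} {u : X ⟶ Y} {v : Y ⟶ Z} {w : Z ⟶ X⟦(1 : ℤ)⟧}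
  {u' : X' ⟶ Y'} {v' : Y' ⟶ Z'} {w' : Z' ⟶ X'⟦(1 : ℤ)⟧}

theorem c3_fst (f : X ⟶ X') : mat₃ u f w' ≫ biprod.fst⟦(1 : ℤ)⟧' = -biprod.fst ≫ u⟦1⟧' := by
  ext <;> simp [mat₃, ← Functor.map_comp]

theorem c3_snd (f : X ⟶ X') :
    mat₃ u f w' ≫ biprod.snd⟦(1 : ℤ)⟧' = biprod.fst ≫ f⟦1⟧' + biprod.snd ≫ w' := by
  ext <;> simp [mat₃, ← Functor.map_comp]

/-- a map of triangles from its components -/
abbrev hm {f : X ⟶ X'} {g : Y ⟶ Y'} {h : Z ⟶ Z'} (e₁ : u ≫ g = f ≫ u') (e₂ : v ≫ h = g ≫ v')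
    (e₃ : w ≫ f⟦1⟧' = h ≫ w') : Triangle.mk u v w ⟶ Triangle.mk u' v' w' :=
  Triangle.homMk _ _ f g h e₁ e₂ e₃

theorem cmp {f : X ⟶ X'} {g : Y ⟶ Y'} {h : Z ⟶ Z'} {e₁ : u ≫ g = f ≫ u'} {e₂ : v ≫ h = g ≫ v'}
    {e₃ : w ≫ f⟦1⟧' = h ≫ w'} (H : VerdierGood (hm e₁ e₂ e₃)) {A : C} {p : Y' ⟶ A}
    {r : A ⟶ X⟦(1 : ℤ)⟧} (hA : Ex (u ≫ g) p r) : ∃ (α : Z ⟶ A) (β : A ⟶ Z'), v ≫ α = g ≫ p ∧
      α ≫ r = w ∧ p ≫ β = v' ∧ β ≫ w' = r ≫ f⟦1⟧' ∧ h = α ≫ β := by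
  obtain ⟨_, _, _, h2⟩ := distinguished_cocone_triangle f
  obtain ⟨_, _, _, h3⟩ := distinguished_cocone_triangle g
  obtain ⟨α, _, _, β, ⟨-, a1, a2, -⟩, ⟨-, -, -, a3, a4⟩, a5⟩ :=
    (vg_iff _).mp H ⟨_, _, _, _, _, _, _, _, _, hA, h2, h3⟩
  exact ⟨α, β, a1, a2, a3, a4, a5⟩

theorem cmp0 {f : X ⟶ X'} {g : Y ⟶ Y'} {h : Z ⟶ Z'} {e₁ : u ≫ g = f ≫ u'} {e₂ : v ≫ h = g ≫ v'}
    {e₃ : w ≫ f⟦1⟧' = h ≫ w'} (H : VerdierGood (hm e₁ e₂ e₃)) (h0 : u ≫ g = 0) :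
    ∃ (s : Z ⟶ Y') (t : X⟦(1 : ℤ)⟧ ⟶ Z'), v ≫ s = g ∧ t ≫ w' = f⟦1⟧' ∧ h = s ≫ v' + w ≫ t := by
  have hA : Ex (u ≫ g) biprod.inl biprod.snd := by
    rw [h0]
    have B : Ex (biprod.inl : Y' ⟶ Y' ⊞ X⟦(1 : ℤ)⟧) biprod.snd 0 :=
      binaryBiproductTriangle_distinguished _ _
    exact (rotate_distinguished_triangle _).mpr
      (show Ex _ _ (-(0 : X ⟶ Y')⟦(1 : ℤ)⟧') by simpa using B)
  obtain ⟨α, β, a1, a2, a3, a4, a5⟩ := cmp H hA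
  refine ⟨α ≫ biprod.fst, biprod.inr ≫ β, by simp [reassoc_of% a1], by simp [a4], ?_⟩
  rw [a5, ← a2, ← a3]
  simp only [assoc, ← comp_add]
  congr 1
  ext <;> simp

end

section

variable {P Q S Z Z' : C} {a : P ⟶ Q} {v : Q ⟶ Z} {w : Z ⟶ P⟦(1 : ℤ)⟧} (H : Ex a v w)
  {b : Q ⟶ S} {v' : S ⟶ Z'} {w' : Z' ⟶ Q⟦(1 : ℤ)⟧} (H' : Ex b v' w') {h : Z ⟶ Z'}
  (e₂ : v ≫ h = b ≫ v') (e₃ : w ≫ a⟦1⟧' = h ≫ w')
include H H'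

theorem rot_not (V : VerdierGood ((rotate C).map (hm rfl e₂ e₃))) : ∃ θ, h = w ≫ θ ≫ v' := by
  obtain ⟨s, t, a1, a2, a3⟩ := cmp0 (u := v) (v := w) (w := -a⟦1⟧') (u' := v') (v' := w')
    (w' := -b⟦1⟧') (f := b) (g := h) (h := a⟦1⟧') V (e₂.trans H'.z₁)
  obtain ⟨r, a4⟩ := H'.k₁ (t + 𝟙 _) (by rw [add_comp, id_comp]; nth_rewrite 2 [← a2]; simp)
  obtain ⟨θ, a5⟩ := H'.k₃ (s - a⟦1⟧' ≫ r) (by
    rw [sub_comp, assoc, ← a4, comp_add, comp_id, sub_eq_zero]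
    nth_rewrite 2 [a3]; simp)
  exact ⟨θ, by rw [← a5, comp_sub, a1, ← assoc, H.z₃, zero_comp, sub_zero]⟩

theorem zero_not (e₂ : v ≫ h = 0 ≫ v') (e₃ : w ≫ (0 : P ⟶ Q)⟦1⟧' = h ≫ w')
    (V : VerdierGood (hm (by simp : a ≫ 0 = 0 ≫ b) e₂ e₃)) : ∃ θ, h = w ≫ θ ≫ v' := by
  obtain ⟨s, t, a1, a2, a3⟩ := cmp0 V (by simp)
  obtain ⟨θ, rfl⟩ := H.y₃ s a1
  obtain ⟨θ', rfl⟩ := H'.k₃ t (by simpa using a2)
  exact ⟨θ + θ', by simp [a3]⟩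

theorem good_not (V : Good (hm rfl e₂ e₃)) : ∃ θ, h = w ≫ θ ≫ v' := by
  have V' : Ex (biprod.desc (biprod.lift (-v) b) (biprod.lift 0 b))
    (biprod.desc (biprod.lift (-w) h) (biprod.lift 0 v')) (mat₃ a a w') := V
  obtain ⟨j, a1, a2⟩ := H.rot.tr3 V' (biprod.lift (-𝟙 _) (𝟙 _)) biprod.inl (by ext <;> simp)
  have a3 := a2 =≫ biprod.fst⟦1⟧'
  have a4 := a2 =≫ biprod.snd⟦1⟧'
  rw [assoc, assoc, c3_fst, ← Functor.map_comp] at a3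
  rw [assoc, assoc, c3_snd, ← Functor.map_comp] at a4
  simp at a3 a4
  obtain ⟨θ, a5⟩ := H'.k₃ (j ≫ biprod.snd) (by
    rw [← neg_eq_iff_eq_neg] at a3; rw [← a3] at a4; simpa using a4)
  exact ⟨θ, by simpa [← a5] using (a1 =≫ biprod.snd).symm⟩

end

theorem ex1 {X Y Z X' Y' Z' : C} {u : X ⟶ Y} {v : Y ⟶ Z} {w : Z ⟶ X⟦(1 : ℤ)⟧} (H : Ex u v w)
    {u' : X' ⟶ Y'} {v' : Y' ⟶ Z'} {w' : Z' ⟶ X'⟦(1 : ℤ)⟧} (H' : Ex u' v' w') {h : Z ⟶ Z'}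
    (h1 : v ≫ h = 0) (h2 : h ≫ w' = 0) (h3 : ∀ θ, h ≠ w ≫ θ ≫ v') :
    ∃ (T T' : Triangle C) (φ ψ : T ⟶ T'), T ∈ distTriang C ∧ T' ∈ distTriang C ∧ VerdierGood φ ∧
      ¬ Good φ ∧ ¬ VerdierGood ((rotate C).map φ) ∧ Homotopic φ ψ ∧ ¬ VerdierGood ψ := by
  have K : Ex (biprod.map u (𝟙 X')) (biprod.fst ≫ v) (w ≫ biprod.inl⟦1⟧') :=
    (H.sum (contractible_distinguished X')).iso (.refl _) (.refl _) (isoBiprodZero (isZero_zero C))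
      (by simp) (by ext <;> simp) (by simp)
  have K' : Ex (biprod.map (𝟙 Y) u') (biprod.snd ≫ v') (w' ≫ biprod.inr⟦1⟧') :=
    (Ex.sum (contractible_distinguished Y) H').iso (.refl _) (.refl _)
      (isoZeroBiprod (isZero_zero C)) (by simp) (by ext <;> simp) (by simp)
  have e₂ : (biprod.fst ≫ v) ≫ h = biprod.map (𝟙 Y) u' ≫ biprod.snd ≫ v' := by simp [h1, H'.z₁]
  have e₃ : (w ≫ biprod.inl⟦1⟧') ≫ (biprod.map u (𝟙 X'))⟦1⟧' = h ≫ w' ≫ biprod.inr⟦1⟧' := by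
    rw [K.z₃, reassoc_of% h2, zero_comp]
  have N : ¬ ∃ θ, h = (w ≫ (biprod.inl : X ⟶ X ⊞ X')⟦1⟧') ≫ θ ≫ (biprod.snd : Y ⊞ Y' ⟶ Y') ≫ v' :=
    fun ⟨θ, e⟩ => h3 (biprod.inl⟦1⟧' ≫ θ ≫ biprod.snd) (by simpa using e)
  have e₂' : (biprod.fst ≫ v) ≫ h = (0 : Y ⊞ X' ⟶ Y ⊞ Y') ≫ biprod.snd ≫ v' := by simp [h1]
  have e₃' : (w ≫ biprod.inl⟦1⟧') ≫ (0 : X ⊞ X' ⟶ Y ⊞ X')⟦1⟧' = h ≫ w' ≫ biprod.inr⟦1⟧' := by
    simp [reassoc_of% h2]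
  refine ⟨_, _, hm rfl e₂ e₃, hm (by simp) e₂' e₃', K, K', ?_, fun V => N (good_not K K' _ _ V),
    fun V => N (rot_not K K' _ _ V), ⟨𝟙 _, 0, 0, by simp, by simp, by simp⟩,
    fun V => N (zero_not K K' _ _ V)⟩
  have KA : Ex (biprod.map u (𝟙 X') ≫ biprod.map (𝟙 Y) u') _ _ := (H.sum H').iso (.refl _) (.refl _)
    (.refl _) (by ext <;> simp) (id_comp _ |>.trans (comp_id _).symm).symm (by simp; rfl)
  have z : (w' ≫ biprod.inr⟦1⟧') ≫ ((biprod.fst : Y ⊞ X' ⟶ Y) ≫ v)⟦(1 : ℤ)⟧' = 0 := by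
    simp [← Functor.map_comp]
  have B : Ex (biprod.inl : Z ⟶ Z ⊞ Z') biprod.snd 0 := binaryBiproductTriangle_distinguished _ _
  have O : ∀ k : Z ⟶ Z', v ≫ k = 0 → k ≫ w' = 0 → Oct (biprod.map u (𝟙 X')) (biprod.fst ≫ v)
      (w ≫ biprod.inl⟦1⟧') (biprod.map (𝟙 Y) u') (biprod.snd ≫ v') (w' ≫ biprod.inr⟦1⟧')
      (biprod.map v v') (biprod.desc (w ≫ biprod.inl⟦1⟧') (w' ≫ biprod.inr⟦1⟧'))
      (biprod.lift (𝟙 _) k) (biprod.desc (-k) (𝟙 _)) := fun k k1 k2 =>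
    ⟨z ▸ B.iso (.refl _) (Biprod.unipotentUpper (-k)) (.refl _) (by ext <;> simp) (by ext <;> simp)
      (by simp), by ext <;> simp [k1, H'.z₁], by simp [reassoc_of% k2], by ext <;> simp [k1], by
        ext <;> simp [reassoc_of% k2, ← Functor.map_comp]
        rw [Functor.map_comp, reassoc_of% H.z₃, zero_comp]⟩
  exact ⟨⟨_, _, _, _, _, _, _, _, _, KA, K, K'⟩, _, _, _, _, O h h1 h2, O 0 (by simp) (by simp),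
    by simp⟩

variable (R : Type) [CommRing R]

/-- `R` in degree zero -/
noncomputable abbrev E : DC R := (DerivedCategory.singleFunctor _ 0).obj (ModuleCat.of R R)

variable {R}

theorem endE (φ : E R ⟶ E R) : ∃ r : R, φ = r • 𝟙 _ := by
  obtain ⟨ψ, rfl⟩ := (DerivedCategory.singleFunctor (ModuleCat.{0} R) 0).map_surjective φ
  refine ⟨ψ.hom 1, ?_⟩
  rw [← CategoryTheory.Functor.map_id, ← Functor.map_smul]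
  congr 1; ext; simp

theorem injE {r s : R} (h : r • 𝟙 (E R) = s • 𝟙 (E R)) : r = s := by
  rw [← CategoryTheory.Functor.map_id, ← Functor.map_smul, ← Functor.map_smul] at h
  simpa using congrArg (fun f => f.hom 1)
    ((DerivedCategory.singleFunctor (ModuleCat.{0} R) 0).map_injective h)

theorem exR (x : R) (hx : ∀ t, -x ≠ x * t * x) :
    ∃ (T T' : Triangle (DC R)) (φ ψ : T ⟶ T'), T ∈ distTriang _ ∧ T' ∈ distTriang _ ∧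
      VerdierGood φ ∧ ¬ Good φ ∧ ¬ VerdierGood ((rotate _).map φ) ∧ Homotopic φ ψ ∧
      ¬ VerdierGood ψ := by
  obtain ⟨Z, b, c, H⟩ := distinguished_cocone_triangle (x • 𝟙 (E R))
  replace H : Ex _ b c := H
  refine ex1 H.rot H.rot.rot H.rot.z₂ H.rot.rot.z₂ fun θ h => ?_
  obtain ⟨θ, rfl⟩ := (shiftFunctor _ (1 : ℤ)).map_surjective θ
  obtain ⟨t, rfl⟩ := endE θ
  rw [neg_comp, comp_neg, comp_neg, neg_neg, ← Functor.map_comp, ← Functor.map_comp,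
    ← Functor.map_neg] at h
  exact hx t (injE (by
    rw [neg_smul, (shiftFunctor _ (1 : ℤ)).map_injective h]; simp [smul_smul, mul_comm]))

end Pool.Agent.H.MP_f37e0b_al
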