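import Pool.Agent.H.MP_f37e0b_al.B

set_option autoImplicit false
set_option backward.isDefEq.respectTransparency false

namespace Pool.Agent.H.MP_f37e0b_al

open CategoryTheory Limits Pretriangulated Category Preadditive ZeroObject

universe v u

variable {C : Type u} [Category.{v} C] [Preadditive C] [HasZeroObject C] [HasShift C ℤ]
  [∀ n : ℤ, (shiftFunctor C n).Additive] [Pretriangulated C]

variable {X Y Z X' Y' Z' : C} {u : X ⟶ Y} {v : Y ⟶ Z} {w : Z ⟶ X⟦(1 : ℤ)⟧} (H : Ex u v w)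
  {u' : X' ⟶ Y'} {v' : Y' ⟶ Z'} {w' : Z' ⟶ X'⟦(1 : ℤ)⟧} (H' : Ex u' v' w')
  {f : X ⟶ X'} {g : Y ⟶ Y'} (e₁ : u ≫ g = f ≫ u')
include H H' e₁

theorem good_ex [IsTriangulated C] : ∃ h : Z ⟶ Z', v ≫ h = g ≫ v' ∧ w ≫ f⟦1⟧' = h ≫ w' ∧
    Ex (biprod.desc (biprod.lift (-v) g) (biprod.lift 0 u'))
      (biprod.desc (biprod.lift (-w) h) (biprod.lift 0 v')) (mat₃ u f w') := by
  obtain ⟨P, d, e, h1⟩ := distinguished_cocone_triangle
    (biprod.desc (biprod.lift (-v) g) (biprod.lift 0 u'))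
  replace h1 : Ex _ d e := h1
  have h2 : Ex (biprod.inr : Y' ⟶ Z ⊞ Y') biprod.fst 0 :=
    Ex.iso (binaryBiproductTriangle_distinguished Y' Z) (.refl _) (biprod.braiding _ _) (.refl _)
      (by ext <;> simp) (by simp) (by simp)
  have h3 : Ex (biprod.map u (𝟙 X')) (biprod.fst ≫ v) (w ≫ biprod.inl⟦1⟧') :=
    (H.sum (contractible_distinguished X')).iso (.refl _) (.refl _) (isoBiprodZero (isZero_zero C))
      (by simp) (by ext <;> simp) (by simp)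
  have h4 : Ex (-biprod.fst ≫ v) (-w ≫ biprod.inl⟦1⟧') (-(biprod.map u (𝟙 X'))⟦1⟧') :=
    h3.rot.iso (.refl _) (-.refl _) (.refl _) (by simp) (by simp) (by simp)
  obtain ⟨m₁, m₃, a1, a2, -, a4, a5⟩ := Triangulated.someOctahedron (by ext <;> simp) h1 h2.rot h4
  replace a5 : Ex m₁ m₃ _ := a5
  obtain rfl : m₃ = (biprod.desc (u ≫ g) u')⟦1⟧' := by
    have := a4 =≫ biprod.snd⟦1⟧'
    simp only [neg_comp, comp_neg, assoc, ← Functor.map_comp, biprod.inr_snd, neg_inj] at this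
    rw [CategoryTheory.Functor.map_id, comp_id] at this
    rw [← this]; congr 1; ext <;> simp
  have h5 : Ex (biprod.desc (u ≫ g) u') (biprod.lift 0 v') (mat₃ (𝟙 X) f w') :=
    (Ex.sum (Ex.rot (contractible_distinguished X)) H').iso (Biprod.unipotentUpper f)
      (isoZeroBiprod (isZero_zero C)) (.refl _) (by ext <;> simp [e₁, Biprod.ofComponents]) (by ext <;> simp) (by
        ext
        · simp only [mat₃, biprod.inl_desc_assoc, ← Functor.map_comp, Iso.refl_hom, id_comp,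
            biprod.inl_desc, ← Functor.map_neg]
          congr 1; ext <;> simp
        · simp [mat₃, ← Functor.map_comp])
  have h6 : Ex (biprod.desc (u ≫ g) u') (biprod.inr ≫ d) (-m₁) :=
    (rotate_distinguished_triangle _).mpr ((rotate_distinguished_triangle _).mpr
      (show Ex (-m₁) (-_) (-(biprod.inr ≫ d)⟦(1 : ℤ)⟧') from
        a5.iso (.refl _) (-.refl _) (.refl _) (by simp) (by simp) (by simp)))
  obtain ⟨Θ, b1, b2⟩ := h6.uniq h5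
  have b3 : biprod.inl ≫ d ≫ Θ.hom ≫ mat₃ (𝟙 X) f w' = w ≫ biprod.inl⟦1⟧' := by
    have : d ≫ m₁ = biprod.fst ≫ (-w ≫ biprod.inl⟦1⟧') := a1
    simp [b2, this]
  have b4 := b3 =≫ biprod.fst⟦1⟧'
  have b5 := b3 =≫ biprod.snd⟦1⟧'
  simp only [assoc, c3_fst, c3_snd, ← Functor.map_comp, biprod.inl_fst, biprod.inl_snd] at b4 b5
  simp at b4 b5
  have b6 : d ≫ Θ.hom = biprod.desc (biprod.lift (-w) (biprod.inl ≫ d ≫ Θ.hom ≫ biprod.snd))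
      (biprod.lift 0 v') := by
    ext
    · simp [← b4]
    · simp
    · simp [← b1]
    · simp [← b1]
  refine ⟨biprod.inl ≫ d ≫ Θ.hom ≫ biprod.snd, ?_, ?_, h1.iso (.refl _) (.refl _) Θ.symm (by simp)
    (by simp [← b6]) ?_⟩
  · have := biprod.inl ≫= h1.z₁ =≫ Θ.hom ≫ biprod.snd
    rw [assoc, reassoc_of% b6] at this
    simpa [neg_add_eq_zero] using this
  · rw [← b4]; simpa [add_eq_zero_iff_neg_eq] using b5
  · have : m₁ ≫ (-(biprod.map u (𝟙 X'))⟦1⟧') = e := a2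
    rw [← this, comp_neg, ← neg_comp, ← b2]
    ext
    · simp only [mat₃, biprod.inl_desc_assoc, Iso.refl_hom, Functor.map_id, comp_id, assoc,
        Iso.symm_hom, Iso.inv_hom_id_assoc, ← Functor.map_comp, biprod.inl_desc]
      congr 1; ext <;> simp
    · simp [mat₃, ← Functor.map_comp]

theorem good_shift {h : Z ⟶ Z'} (e₃ : w ≫ f⟦1⟧' = h ≫ w')
    (G : Ex (biprod.desc (biprod.lift (-v) g) (biprod.lift 0 u'))
      (biprod.desc (biprod.lift (-w) h) (biprod.lift 0 v')) (mat₃ u f w'))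
    {q : X' ⟶ X} {μ : Y' ⟶ Y} {κ : Y' ⟶ X'} {l : Y ⟶ X} (r1 : q ≫ u = u' ≫ μ)
    (r2 : (u ≫ l + f ≫ q) ≫ u = 0) (r3 : u' ≫ κ ≫ u' = q ≫ u ≫ g) :
    ∃ ρ : X⟦(1 : ℤ)⟧ ⟶ Z', ρ ≫ w' = (u ≫ g ≫ κ + u ≫ l ≫ f)⟦1⟧' ∧
      Ex (biprod.desc (biprod.lift (-v) g) (biprod.lift 0 u'))
        (biprod.desc (biprod.lift (-w) (h + w ≫ ρ)) (biprod.lift 0 v')) (mat₃ u f w') := by
  obtain ⟨σ, a1⟩ := H'.k₁ ((u' ≫ κ - q ≫ f)⟦(1 : ℤ)⟧') (by
    rw [← Functor.map_comp, sub_comp, assoc, assoc, r3, e₁, sub_self, Functor.map_zero])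
  obtain ⟨r, a2⟩ := H'.k₁ (((u ≫ l + f ≫ q) ≫ f)⟦(1 : ℤ)⟧') (by
    rw [← Functor.map_comp, assoc, ← e₁, reassoc_of% r2, zero_comp, Functor.map_zero])
  have a3 : (f⟦1⟧' ≫ σ + r) ≫ w' = (u ≫ g ≫ κ + u ≫ l ≫ f)⟦1⟧' := by
    rw [add_comp, assoc, ← a1, ← a2, ← Functor.map_comp, ← Functor.map_add]
    simp [reassoc_of% e₁]
  refine ⟨_, a3, ?_⟩
  obtain ⟨N, hN⟩ : ∃ N : X⟦(1 : ℤ)⟧ ⊞ Z' ⟶ X⟦(1 : ℤ)⟧ ⊞ Z', N = biprod.desc
    (biprod.lift ((u ≫ l + f ≫ q)⟦1⟧') (-r)) (biprod.lift (w' ≫ q⟦1⟧') (w' ≫ σ)) := ⟨_, rfl⟩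
  have b1 : biprod.desc (biprod.lift (-w) h) (biprod.lift 0 v') ≫ N =
      biprod.fst ≫ w ≫ (f⟦1⟧' ≫ σ + r) ≫ biprod.inr := by
    ext <;> simp [hN, reassoc_of% H.z₃, reassoc_of% e₃, reassoc_of% H'.z₂, add_comm]
  have b2 : N ≫ mat₃ u f w' = 0 := by
    have c1 : N ≫ mat₃ u f w' ≫ biprod.fst⟦1⟧' = 0 := by
      rw [c3_fst, hN]
      ext
      · simp only [comp_neg, biprod.inl_desc_assoc, biprod.lift_fst_assoc, ← Functor.map_comp, r2]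
        simp
      · simp only [comp_neg, biprod.inr_desc_assoc, biprod.lift_fst_assoc, assoc,
          ← Functor.map_comp, r1]
        simp [reassoc_of% H'.z₃]
    have c2 : N ≫ mat₃ u f w' ≫ biprod.snd⟦1⟧' = 0 := by
      rw [c3_snd, hN]
      ext
      · simp [← a2]
      · simp [← a1, reassoc_of% H'.z₃]
    rw [← comp_id (mat₃ u f w'), ← CategoryTheory.Functor.map_id, ← biprod.total, Functor.map_add,
      Functor.map_comp, Functor.map_comp, comp_add, comp_add, reassoc_of% c1, reassoc_of% c2]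
    simp
  obtain ⟨M, b3⟩ := G.k₃ N b2
  have b4 : w ≫ (f⟦1⟧' ≫ σ + r) ≫ w' = 0 := by simp [a3, reassoc_of% H.z₃]
  have b5 : N ≫ N ≫ N = 0 := by
    nth_rewrite 1 [b3]
    rw [assoc, reassoc_of% b1, hN, biprod.inr_desc]
    ext <;> simp only [assoc, biprod.lift_fst, biprod.lift_snd, reassoc_of% b4] <;> simp
  refine G.iso (.refl _) (.refl _) (Iso.symm ⟨𝟙 _ + N, 𝟙 _ - N + N ≫ N, by simp [b5]; abel,
    by simp [b5]⟩)
    (by simp) ?_ (by simp [b2])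
  rw [Iso.symm_hom, Iso.comp_inv_eq, Iso.refl_hom, id_comp]
  dsimp only
  rw [comp_add _ _ _ _ _ N, b1]
  ext <;> simp

theorem vg_diff {h : Z ⟶ Z'} {ρ : X⟦(1 : ℤ)⟧ ⟶ Z'} {e₂ e₃ e₂' e₃'}
    (V : VerdierGood (hm (h := h) (w := w) (w' := w') (v := v) (v' := v') e₁ e₂ e₃))
    (V' : VerdierGood (hm (h := h + w ≫ ρ) (w := w) (w' := w') (v := v) (v' := v') e₁ e₂' e₃')) :
    ∃ (k₁ : Y ⟶ X) (k₂ : Y' ⟶ X') (k₀ : Y ⟶ X'), u ≫ k₁ ≫ u ≫ g = 0 ∧ u ≫ g ≫ k₂ ≫ u' = 0 ∧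
      k₀ ≫ u' = 0 ∧ ρ ≫ w' = (u ≫ k₁ ≫ f + u ≫ g ≫ k₂ + u ≫ k₀)⟦1⟧' := by
  obtain ⟨A, p, r, hA⟩ := distinguished_cocone_triangle (u ≫ g)
  replace hA : Ex _ p r := hA
  obtain ⟨α, β, a1, a2, a3, a4, a5⟩ := cmp V hA
  obtain ⟨α', β', b1, b2, b3, b4, b5⟩ := cmp V' hA
  have s := fun {P Q : C} => (shiftFunctor C (1 : ℤ)).map_surjective (X := P) (Y := Q)
  have z := fun {P Q : C} (x : P ⟶ Q) => (shiftFunctor C (1 : ℤ)).map_eq_zero_iff (f := x)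
  obtain ⟨ρ₁, c1⟩ := H.y₃ (α' - α) (by simp [a1, b1])
  obtain ⟨k₁, c2⟩ := H.y₁ (ρ₁ ≫ r) (by simp [← reassoc_of% c1, a2, b2])
  obtain ⟨ρ₂, c3⟩ := hA.y₃ (β' - β) (by simp [a3, b3])
  obtain ⟨k₂, c4⟩ := hA.y₁ (ρ₂ ≫ w') (by simp [← reassoc_of% c3, a4, b4])
  obtain ⟨τ, c5⟩ := H.y₁ (ρ - ρ₂ - ρ₁ ≫ β) (by
    rw [sub_eq_iff_eq_add'] at c1 c3
    rw [c1, c3, a5] at b5
    simp only [add_comp, comp_add, assoc, reassoc_of% a2, reassoc_of% c2, reassoc_of% H.z₃,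
      zero_comp, add_zero, add_assoc, add_right_inj] at b5
    simp [b5])
  obtain ⟨k₁, rfl⟩ := s k₁
  obtain ⟨k₂, rfl⟩ := s k₂
  obtain ⟨k₀, c6⟩ := s (τ ≫ w')
  refine ⟨k₁, k₂, k₀, (z _).mp ?_, (z _).mp ?_, (z _).mp ?_, ?_⟩
  · rw [Functor.map_comp, Functor.map_comp, ← reassoc_of% c2, hA.z₃, comp_zero]
  · rw [← assoc, Functor.map_comp, Functor.map_comp _ k₂, ← reassoc_of% c4, H'.z₃, comp_zero]
  · rw [Functor.map_comp, c6, assoc, H'.z₃, comp_zero]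
  · rw [sub_sub, sub_eq_iff_eq_add'] at c5
    simp [c5, c4, a4, reassoc_of% c2, c6, add_comm]

theorem gnv [IsTriangulated C] {q : X' ⟶ X} {μ : Y' ⟶ Y} {κ : Y' ⟶ X'} {l : Y ⟶ X}
    (r1 : q ≫ u = u' ≫ μ) (r2 : (u ≫ l + f ≫ q) ≫ u = 0) (r3 : u' ≫ κ ≫ u' = q ≫ u ≫ g)
    (hN : ∀ (k₁ : Y ⟶ X) (k₂ : Y' ⟶ X') (k₀ : Y ⟶ X'), u ≫ k₁ ≫ u ≫ g = 0 →
      u ≫ g ≫ k₂ ≫ u' = 0 → k₀ ≫ u' = 0 →
      u ≫ g ≫ κ + u ≫ l ≫ f ≠ u ≫ k₁ ≫ f + u ≫ g ≫ k₂ + u ≫ k₀) :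
    ∃ φ : Triangle.mk u v w ⟶ Triangle.mk u' v' w', Good φ ∧ ¬ VerdierGood φ := by
  obtain ⟨h, e₂, e₃, G⟩ := good_ex H H' e₁
  obtain ⟨ρ, a1, G'⟩ := good_shift H H' e₁ e₃ G r1 r2 r3
  have e₂' : v ≫ (h + w ≫ ρ) = g ≫ v' := by simp [e₂, reassoc_of% H.z₂]
  have e₃' : w ≫ f⟦1⟧' = (h + w ≫ ρ) ≫ w' := by simp [e₃, a1, reassoc_of% H.z₃]
  by_cases V : VerdierGood (hm e₁ e₂ e₃)
  · refine ⟨hm e₁ e₂' e₃', G', fun V' => ?_⟩
    obtain ⟨k₁, k₂, k₀, b1, b2, b3, b4⟩ := vg_diff H H' e₁ V V'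
    exact hN k₁ k₂ k₀ b1 b2 b3 ((shiftFunctor C (1 : ℤ)).map_injective (a1.symm.trans b4))
  · exact ⟨hm e₁ e₂ e₃, G, V⟩

omit H H' e₁

instance opMod : Module ℤᵐᵒᵖ (ZMod 8) := Module.compHom _ ((RingHom.id ℤ).fromOpposite mul_comm)

instance opCentral : IsCentralScalar ℤ (ZMod 8) := ⟨fun _ _ => rfl⟩

/-- the ring `ℤ ⋉ ℤ/8` -/
abbrev Rg : Type := TrivSqZeroExt ℤ (ZMod 8)

theorem exG : ∃ (T T' : Triangle (DC Rg)) (φ : T ⟶ T'), T ∈ distTriang _ ∧ T' ∈ distTriang _ ∧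
    Good φ ∧ ¬ VerdierGood φ := by
  let x : Rg := ⟨2, 0⟩
  let s : Rg := ⟨2, 1⟩
  obtain ⟨Z, v, w, H⟩ := distinguished_cocone_triangle ((x * x) • 𝟙 (E Rg))
  obtain ⟨Z', v', w', H'⟩ := distinguished_cocone_triangle ((x * s) • 𝟙 (E Rg))
  have k : ∀ {a b : Rg}, a = b → a • 𝟙 (E Rg) = b • 𝟙 (E Rg) := fun h => by rw [h]
  obtain ⟨φ, h⟩ := gnv (f := x • 𝟙 _) (g := s • 𝟙 _) H H' (by simp [smul_smul]; ring_nf)
    (q := s • 𝟙 _) (μ := x • 𝟙 _) (κ := 𝟙 _) (l := -𝟙 _) (by simp [smul_smul]; ring_nf) (by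
      simp only [Linear.smul_comp, Linear.comp_smul, id_comp, comp_neg, ← neg_smul, smul_smul,
        ← add_smul, comp_id]
      exact (k (by ext <;> simp [x, s]; decide)).trans (zero_smul _ _)) (by simp [smul_smul]; ring_nf)
    fun k₁ k₂ k₀ h1 h2 h3 h4 => by
      obtain ⟨a, rfl⟩ := endE k₁
      obtain ⟨b, rfl⟩ := endE k₂
      obtain ⟨c, rfl⟩ := endE k₀
      rw [← zero_smul Rg (𝟙 _)] at h1 h2 h3
      simp only [Linear.smul_comp, Linear.comp_smul, id_comp, comp_neg, ← neg_smul, smul_smul,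
        ← add_smul, comp_id, neg_comp] at h1 h2 h3 h4
      replace h1 := congrArg TrivSqZeroExt.fst (injE h1)
      replace h2 := congrArg TrivSqZeroExt.fst (injE h2)
      have h5 := congrArg TrivSqZeroExt.fst (injE h3)
      replace h3 := congrArg TrivSqZeroExt.snd (injE h3)
      replace h4 := congrArg TrivSqZeroExt.snd (injE h4)
      simp [x, s] at h1 h2 h5
      simp [x, s, h1, h2, h5] at h3 h4
      revert h3 h4
      generalize a.snd = a, b.snd = b, c.snd = c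
      revert a b c
      decide
  exact ⟨_, _, φ, H, H', h⟩

end Pool.Agent.H.MP_f37e0b_al
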