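import Mathlib

set_option autoImplicit false

namespace Pool.Agent.H.MP_f37e0b_al

open CategoryTheory Limits Pretriangulated

universe v u

variable {C : Type u} [Category.{v} C] [Preadditive C] [HasZeroObject C] [HasShift C ℤ]
  [∀ n : ℤ, (shiftFunctor C n).Additive] [Pretriangulated C]

/-- `X → Y → Z → ΣX` is an exact triangle. -/
def Ex {X Y Z : C} (a : X ⟶ Y) (b : Y ⟶ Z) (c : Z ⟶ X⟦(1 : ℤ)⟧) : Prop :=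
  Triangle.mk a b c ∈ distTriang C

/-- `(α, β)` is an octahedron for `X → Y → Y'`, relative to the triangles `(a, b, c)` on `a`,
`(g, g', g'')` on `g` and `(a ≫ g, p, r)` on the composite. -/
def Oct {X Y Y' Z Y'' A : C} (a : X ⟶ Y) (b : Y ⟶ Z) (c : Z ⟶ X⟦(1 : ℤ)⟧) (g : Y ⟶ Y')
    (g' : Y' ⟶ Y'') (g'' : Y'' ⟶ Y⟦(1 : ℤ)⟧) (p : Y' ⟶ A) (r : A ⟶ X⟦(1 : ℤ)⟧) (α : Z ⟶ A)
    (β : A ⟶ Y'') : Prop :=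
  Ex α β (g'' ≫ b⟦1⟧') ∧ b ≫ α = g ≫ p ∧ α ≫ r = c ∧ p ≫ β = g' ∧ β ≫ g'' = r ≫ a⟦1⟧'

/-- A choice of exact triangles on `gu`, `f` and `g`, for a map of triangles `φ = (f, g, h)`. -/
structure Aux {T T' : Triangle C} (φ : T ⟶ T') where
  (A X'' Y'' : C)
  (p : T'.obj₂ ⟶ A)
  (r : A ⟶ T.obj₁⟦(1 : ℤ)⟧)
  (f' : T'.obj₁ ⟶ X'')
  (f'' : X'' ⟶ T.obj₁⟦(1 : ℤ)⟧)
  (g' : T'.obj₂ ⟶ Y'')
  (g'' : Y'' ⟶ T.obj₂⟦(1 : ℤ)⟧)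
  (exA : Ex (T.mor₁ ≫ φ.hom₂) p r)
  (exf : Ex φ.hom₁ f' f'')
  (exg : Ex φ.hom₂ g' g'')

/-- `h = β₂ α₁` for an octahedron `(α₁, β₁)` on `g ∘ u` and an octahedron `(α₂, β₂)` on `u' ∘ f`. -/
def VGFor {T T' : Triangle C} {φ : T ⟶ T'} (D : Aux φ) : Prop :=
  ∃ (α₁ : T.obj₃ ⟶ D.A) (β₁ : D.A ⟶ D.Y'') (α₂ : D.X'' ⟶ D.A) (β₂ : D.A ⟶ T'.obj₃),
    Oct T.mor₁ T.mor₂ T.mor₃ φ.hom₂ D.g' D.g'' D.p D.r α₁ β₁ ∧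
    Oct φ.hom₁ D.f' D.f'' T'.mor₁ T'.mor₂ T'.mor₃ D.p D.r α₂ β₂ ∧ φ.hom₃ = α₁ ≫ β₂

/-- Verdier good maps of triangles (the choice of auxiliary triangles is irrelevant,
see `vg_iff`). -/
def VerdierGood {T T' : Triangle C} (φ : T ⟶ T') : Prop := ∃ D : Aux φ, VGFor D

/-- first map of the mapping cone -/
noncomputable def c₁ {T T' : Triangle C} (φ : T ⟶ T') : T.obj₂ ⊞ T'.obj₁ ⟶ T.obj₃ ⊞ T'.obj₂ :=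
  biprod.desc (biprod.lift (-T.mor₂) φ.hom₂) (biprod.lift 0 T'.mor₁)

/-- second map of the mapping cone -/
noncomputable def c₂ {T T' : Triangle C} (φ : T ⟶ T') :
    T.obj₃ ⊞ T'.obj₂ ⟶ T.obj₁⟦(1 : ℤ)⟧ ⊞ T'.obj₃ :=
  biprod.desc (biprod.lift (-T.mor₃) φ.hom₃) (biprod.lift 0 T'.mor₂)

/-- the matrix `[[-Σa, 0], [Σf, w']] : ΣX ⊕ Z' → Σ(Y ⊕ X')` -/
noncomputable def mat₃ {X Y X' Z' : C} (a : X ⟶ Y) (f : X ⟶ X') (w' : Z' ⟶ X'⟦(1 : ℤ)⟧) :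
    X⟦(1 : ℤ)⟧ ⊞ Z' ⟶ (Y ⊞ X')⟦(1 : ℤ)⟧ :=
  biprod.desc ((biprod.lift (-a) f)⟦1⟧') (w' ≫ biprod.inr⟦1⟧')

/-- third map of the mapping cone -/
noncomputable def c₃ {T T' : Triangle C} (φ : T ⟶ T') :
    T.obj₁⟦(1 : ℤ)⟧ ⊞ T'.obj₃ ⟶ (T.obj₂ ⊞ T'.obj₁)⟦(1 : ℤ)⟧ := mat₃ T.mor₁ φ.hom₁ T'.mor₃

/-- Good maps of triangles (Neeman): the mapping cone is exact. -/
def Good {T T' : Triangle C} (φ : T ⟶ T') : Prop := Ex (c₁ φ) (c₂ φ) (c₃ φ)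

/-- `(f, g, h)` is given by a chain homotopy (the first equation is written after suspending). -/
def Null {T T' : Triangle C} (f : T.obj₁ ⟶ T'.obj₁) (g : T.obj₂ ⟶ T'.obj₂)
    (h : T.obj₃ ⟶ T'.obj₃) : Prop :=
  ∃ (k₁ : T.obj₂ ⟶ T'.obj₁) (k₂ : T.obj₃ ⟶ T'.obj₂) (k₃ : T.obj₁⟦(1 : ℤ)⟧ ⟶ T'.obj₃),
    f⟦(1 : ℤ)⟧' = (T.mor₁ ≫ k₁)⟦1⟧' + k₃ ≫ T'.mor₃ ∧
    g = k₁ ≫ T'.mor₁ + T.mor₂ ≫ k₂ ∧ h = k₂ ≫ T'.mor₂ + T.mor₃ ≫ k₃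

/-- Chain homotopic maps of triangles. -/
def Homotopic {T T' : Triangle C} (φ ψ : T ⟶ T') : Prop :=
  Null (φ.hom₁ - ψ.hom₁) (φ.hom₂ - ψ.hom₂) (φ.hom₃ - ψ.hom₃)

noncomputable instance hasD (R : Type) [CommRing R] : HasDerivedCategory.{1} (ModuleCat.{0} R) :=
  HasDerivedCategory.standard _

/-- The derived category of `R`-modules, with its standard triangulation. -/
abbrev DC (R : Type) [CommRing R] : Type 1 := DerivedCategory (ModuleCat.{0} R)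

end Pool.Agent.H.MP_f37e0b_al
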